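import Pool.Agent.TH24.GlobMain

/-!
# MP_0394fb_al, Q1: part (i) of the precise homotopy hypothesis is false

For every Grothendieck coherator `C` and every extension `F : C → Top` of the disks, the classifying
space functor `|·|` and the fundamental `∞`-groupoid functor `Π_∞` do not induce mutually
quasi-inverse equivalences between the localised categories.

Idea. Let `S ↦ S₀` be the functor sending a globular sum to its set of `0`-cells; it extends to
every coherator `C`. For a group `A` the presheaf `BA` whose value on `S` is the set of `A`-valued
cocycles on `S₀` is an `∞`-`C`-groupoid with one object and `π₁ = A`. Its units are strict: if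
`m : D₁ → D₁ ⨿_{D₀} D₁` is a composition in `C` and `x ∈ F(D₁)`, then `F(m)(x)` is in one of the two
disks, and writing a `1`-cell `a` as `1 ∘ a` or as `a ∘ 1` one sees that the point `x` of the disk
of `a` is identified in `|BA|` with a point of the disk of a unit. Hence `|BA|` is a point, and
`Π_∞ |BA|` has trivial `π₁`.

The definitions are in `Pool/Agent/TH24/GlobDefs.lean`, `GlobGpd.lean` and `GlobTop.lean`.
-/

set_option autoImplicit false

open CategoryTheory

namespace Pool.Agent.Results.MP_0394fb_al.HomotopyHypothesis

open Pool.Agent.TH24.Glob

/-- **The precise homotopy hypothesis (part (i)) is false for every coherator and every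
extension.** -/
theorem result {C : Type} [SmallCategory C] (G : Globe C) (hG : IsCoherator G) (κ : Units G)
    (F : Mor G disks) :
    ¬ InduceEquivalence (weakEq κ) weakHomotopyEq (classifying F) (fundamental F) :=
  not_induceEquivalence hG κ F

end Pool.Agent.Results.MP_0394fb_al.HomotopyHypothesis
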